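import Pool.Agent.Helper53.UR.Tree

set_option autoImplicit false

/-!
# PROJECT UR: packet TRE (the tree)
-/

namespace Pool.Agent.Helper99.UR

open Pool.Agent.Helper65.LinSpace (dig tab nrec ifz)
open Pool.Agent.Helper65.BR (Mach)
open Pool.Agent.Helper53.CTG (ev cut)
open Pool.Agent.Helper53.UR

theorem log_even {v : ℕ} (hv : v ≠ 0) : Nat.log 2 (2 * v) = Nat.log 2 v + 1 := by
  rw [Nat.log_of_one_lt_of_le (by norm_num) (by omega)]
  congr 2
  omega

theorem log_odd {v : ℕ} (hv : v ≠ 0) : Nat.log 2 (2 * v + 1) = Nat.log 2 v + 1 := by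
  rw [Nat.log_of_one_lt_of_le (by norm_num) (by omega)]
  congr 2
  omega

theorem conf1_lt {m : Mach} (h : m.Ok) (t : ℕ) : (m.conf t).1 < 2 ^ m.s := by
  cases t with
  | zero => exact h.hq0
  | succ t => exact h.hN _ _

theorem conf2_lt {m : Mach} (h : m.Ok) (t x : ℕ) : (m.conf t).2 x < 2 ^ m.a := by
  cases t with
  | zero => exact h.hM0 _
  | succ t => exact h.hW _ _ _ _

theorem RJ_lt {m : Mach} {e K b c : ℕ} (h : TOk m e K b c) (j a : ℕ) :
    RJ m (2 ^ e) j a < 2 ^ b := by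
  have h1 : m.s ≤ b := by have := h.hb; omega
  have h2 : m.a ≤ b := by
    have h3 := h.hb
    have h4 : m.a * 1 ≤ m.a * 2 ^ e := Nat.mul_le_mul_left _ Nat.one_le_two_pow
    omega
  rw [RJ, ifz]
  split_ifs
  · exact lt_of_lt_of_le (conf1_lt h.hm _) (Nat.pow_le_pow_right (by norm_num) h1)
  · exact lt_of_lt_of_le (conf2_lt h.hm _ _) (Nat.pow_le_pow_right (by norm_num) h2)

theorem cut_ne {q c n x : ℕ} (h : n % q ≠ 0) : cut q c n x = x := by rw [cut, if_neg h]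

/-- the step -/
theorem lev_succ (hK : GoalKND) (hD : GoalDGS) (hP : PassOK) (hS : SeqOK) {m : Mach}
    {e K b c j : ℕ} (h : TOk m e K b c) (hL : Lev m e K b c j) :
    Lev m e K b c (j + 1) := by
  intro v hv hlog a ha
  obtain ⟨k0, k1, k2, k3, -, -⟩ := hK e
  obtain ⟨d1, d2, d3, -⟩ := hD m h.hm (2 ^ e) j (2 ^ e)
  have hab : a < 2 ^ b := lt_of_lt_of_le ha (Nat.pow_le_pow_right (by norm_num) h.hc)
  have hmul : (j + 1) * (e + 3) = j * (e + 3) + (e + 2) + 1 := by ring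
  have hlog' : Nat.log 2 v + (j * (e + 3) + (e + 2) + 1) = K * (e + 3) := by rw [← hmul, hlog]
  have hdvd : (e + 3) ∣ Nat.log 2 v := by
    have h1 : (e + 3) ∣ Nat.log 2 v + (j + 1) * (e + 3) := by
      rw [hlog]; exact Dvd.intro_left _ rfl
    exact (Nat.dvd_add_left (Dvd.intro_left _ rfl)).1 h1
  obtain ⟨l, hl⟩ := hdvd
  -- the nodes
  have v0 : dv e v = 0 := by rw [dv, hl, Nat.mul_mod_right]
  have pv0 : pv e v = 0 := by rw [pv, v0, pow_zero, Nat.mod_one]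
  have lw : Nat.log 2 (2 * v + 1) = Nat.log 2 v + 1 := log_odd hv
  have dvL : dv e (2 * v) = 1 := by
    rw [dv, log_even hv, hl, Nat.mul_add_mod, Nat.mod_eq_of_lt (by omega)]
  have pvL : pv e (2 * v) = 0 := by rw [pv, dvL, pow_one]; omega
  have dvR : dv e (2 * v + 1) = 1 := by
    rw [dv, lw, hl, Nat.mul_add_mod, Nat.mod_eq_of_lt (by omega)]
  have pvR : pv e (2 * v + 1) = 1 := by rw [pv, dvR, pow_one]; omega
  have hw : 2 * v + 1 ≠ 0 := by omega
  have l2 : Nat.log 2 (2 * (2 * v + 1)) = Nat.log 2 v + 2 := by rw [log_even hw, lw]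
  have l3 : Nat.log 2 (2 * (2 * v + 1) + 1) = Nat.log 2 v + 2 := by rw [log_odd hw, lw]
  have dvRL : dv e (2 * (2 * v + 1)) = 2 := by
    rw [dv, l2, hl, Nat.mul_add_mod, Nat.mod_eq_of_lt (by omega)]
  have pvRL : pv e (2 * (2 * v + 1)) = 2 := by rw [pv, dvRL]; norm_num; omega
  have dvRR : dv e (2 * (2 * v + 1) + 1) = 2 := by
    rw [dv, l3, hl, Nat.mul_add_mod, Nat.mod_eq_of_lt (by omega)]
  have pvRR : pv e (2 * (2 * v + 1) + 1) = 3 := by rw [pv, dvRR]; norm_num; omega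
  -- the heights
  have m1 : (j * (e + 3) + (e + 2)) % (e + 3) ≠ 0 := by
    rw [Nat.mul_comm, Nat.mul_add_mod, Nat.mod_eq_of_lt (by omega)]; omega
  have m2 : (j * (e + 3) + (e + 1)) % (e + 3) ≠ 0 := by
    rw [Nat.mul_comm, Nat.mul_add_mod, Nat.mod_eq_of_lt (by omega)]; omega
  -- the tables
  have t0v : tb m e (K * (e + 3)) b 0 v a 0 0 = a := by
    simp only [tb, v0, pv0, k0, tb0, ifz]
    simp [Nat.mod_eq_of_lt hab]
  have t1v : ∀ y, tb m e (K * (e + 3)) b 1 v a y 0 = 0 := by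
    intro y
    simp only [tb, v0, pv0, k0, tb1, ifz]
    simp
  have t0w : tb m e (K * (e + 3)) b 0 (2 * v + 1) 0 0 0 = 0 := by
    simp only [tb, dvR, pvR, k2, tb0, ifz]
    simp
  have t1w : ∀ y < 2 ^ b, tb m e (K * (e + 3)) b 1 (2 * v + 1) 0 y 0 = y := by
    intro y hy
    simp only [tb, dvR, pvR, k2, tb1, ifz]
    simp [Nat.mod_eq_of_lt hy]
  have t2w : ∀ y z, z < 2 ^ b → tb m e (K * (e + 3)) b 2 (2 * v + 1) 0 y z = z := by
    intro y z hz
    simp only [tb, dvR, pvR, k2, tb2, ifz]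
    simp [Nat.mod_eq_of_lt hz]
  have hc0 : 0 < 2 ^ c := by positivity
  have hRJ0 : RJ m (2 ^ e) j 0 = (m.conf (j * 2 ^ e)).1 := by rw [RJ, ifz, if_pos rfl]
  -- left child
  have eL : ev (tb m e (K * (e + 3)) b) (e + 3) c (j * (e + 3) + (e + 2)) (2 * v) a =
      RJ m (2 ^ e) j a :=
    hP m e K b c j h hL (e + 2) (by omega) le_rfl (2 * v) (by omega)
      (by rw [log_even hv]; omega) (by rw [dvL, pvL]; exact k1) a ha
  -- the children of the right child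
  have eRL : ev (tb m e (K * (e + 3)) b) (e + 3) c (j * (e + 3) + (e + 1)) (2 * (2 * v + 1)) 0 =
      RJ m (2 ^ e) j 0 :=
    hP m e K b c j h hL (e + 1) (by omega) (by omega) (2 * (2 * v + 1)) (by omega)
      (by rw [l2]; omega) (by rw [dvRL, pvRL]; exact k3) 0 hc0
  have eRR : ev (tb m e (K * (e + 3)) b) (e + 3) c (j * (e + 3) + (e + 1))
      (2 * (2 * v + 1) + 1) (RJ m (2 ^ e) j 0) = ZD m (2 ^ e) j (2 ^ e) := by
    have h1 := hS m e K b c j h hL e le_rfl (2 * (2 * v + 1) + 1) (by omega)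
      (by rw [l3]; omega) (by rw [pvRR, Nat.sub_self]; norm_num)
    rw [pvRR, Nat.sub_self, pow_zero, Nat.mod_one, zero_mul, zero_add, d2] at h1
    rw [hRJ0]
    exact h1
  have hZ : ZD m (2 ^ e) j (2 ^ e) < 2 ^ b :=
    lt_of_lt_of_le d1 (Nat.pow_le_pow_right (by norm_num) h.hb)
  -- right child
  have eR : ev (tb m e (K * (e + 3)) b) (e + 3) c (j * (e + 3) + (e + 2)) (2 * v + 1) 0 =
      ZD m (2 ^ e) j (2 ^ e) := by
    have h1 : j * (e + 3) + (e + 2) = (j * (e + 3) + (e + 1)) + 1 := by ring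
    rw [h1, ev, t0w, cut_ne m2, eRL, t1w _ (RJ_lt h j 0), cut_ne m2, eRR, t2w _ _ hZ]
  have h0 : (j + 1) * 2 ^ e = j * 2 ^ e + 2 ^ e := by ring
  have hN : K * (e + 3) - Nat.log 2 v ≠ 0 := by omega
  rw [hmul, ev, t0v, cut_ne m1, eL, t1v, cut_ne m1, eR]
  have t2v : tb m e (K * (e + 3)) b 2 v a (RJ m (2 ^ e) j a) (ZD m (2 ^ e) j (2 ^ e)) =
      RJ m (2 ^ e) (j + 1) a % 2 ^ b := by
    have e1 : tb m e (K * (e + 3)) b 2 v a (RJ m (2 ^ e) j a) (ZD m (2 ^ e) j (2 ^ e)) =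
        (if a = 0 then st m (ZD m (2 ^ e) j (2 ^ e)) (2 ^ e) else
          ct m (ZD m (2 ^ e) j (2 ^ e)) (a - 1) (RJ m (2 ^ e) j a) (2 ^ e)) % 2 ^ b := by
      simp only [tb, v0, pv0, k0, tb2, ifz]
      simp [hN]
    rw [e1, RJ, RJ, ifz, ifz, h0]
    by_cases ha0 : a = 0
    · rw [if_pos ha0, if_pos ha0, (d3 _ le_rfl).1]
    · rw [if_neg ha0, if_neg ha0, if_neg ha0, (d3 _ le_rfl).2]
  rw [t2v, Nat.mod_eq_of_lt (RJ_lt h _ _)]

theorem gTRE : GoalTRE := by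
  intro hK hD hP hS
  have key : ∀ (m : Mach) (e K b c : ℕ), TOk m e K b c → ∀ j ≤ K, Lev m e K b c j := by
    intro m e K b c h j
    induction j with
    | zero =>
      intro _ v hv hlog a ha
      rw [zero_mul, add_zero] at hlog
      have v0 : dv e v = 0 := by rw [dv, hlog, Nat.mul_mod_left]
      have pv0 : pv e v = 0 := by rw [pv, v0, pow_zero, Nat.mod_one]
      have k0 := (hK e).1
      rw [zero_mul, ev, ← Nat.mod_eq_of_lt (RJ_lt h 0 a)]
      simp only [tb, v0, pv0, k0, tb2, RJ, hlog, ifz]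
      simp [Mach.conf]
    | succ j ih =>
      intro hj
      exact lev_succ hK hD hP hS h (ih (by omega))
  refine ⟨key, fun m e K b c h => ?_⟩
  have h1 := key m e K b c h K le_rfl 1 one_ne_zero (by simp) 0 (by positivity)
  rw [h1, RJ, ifz, if_pos rfl]

end Pool.Agent.Helper99.UR
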